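import Pool.Agent.Helper78.DT.Goals

/-!
# DT, packet RNB: renaming of brackets
-/

namespace Pool.Agent.Helper81.DT

open scoped Classical
open Pool.Agent.Helper78.DT

variable {V V' : Type}

/-- The renamed term. -/
noncomputable def imt (π : V → V') (T : Tm V) : Tm V' := T.image (Prod.map π id)

theorem mem_imt (π : V → V') (T : Tm V) (q : V' × Bool) :
    q ∈ imt π T ↔ ∃ p ∈ T, Prod.map π id p = q := Finset.mem_image

theorem card_imt (π : V → V') (T : Tm V) : (imt π T).card ≤ T.card := Finset.card_image_le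

theorem ren_eq (π : V → V') (f : DL V) : ren π f = f.map fun e => (imt π e.1, e.2) := rfl

theorem sat_img (π : V → V') (T : Tm V) (y : V' → Bool) :
    Sat (imt π T) y ↔ Sat T (fun v => y (π v)) := by
  unfold Sat
  constructor
  · intro h p hp
    exact h (Prod.map π id p) ((mem_imt _ _ _).2 ⟨p, hp, rfl⟩)
  · intro h q hq
    obtain ⟨p, hp, rfl⟩ := (mem_imt _ _ _).1 hq
    exact h p hp

theorem nosat_ren (π : V → V') (g : DL V) (y : V' → Bool) :
    NoSat (ren π g) y ↔ NoSat g (fun v => y (π v)) := by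
  rw [ren_eq]
  unfold NoSat
  constructor
  · intro h e he h1
    exact h (imt π e.1, e.2) (List.mem_map.2 ⟨e, he, rfl⟩) ((sat_img π e.1 y).2 h1)
  · intro h e he h1
    obtain ⟨e', he', rfl⟩ := List.mem_map.1 he
    exact h e' he' ((sat_img π e'.1 y).1 h1)

theorem ren_take (π : V → V') (g : DL V) (l : ℕ) : (ren π g).take l = ren π (g.take l) := by
  rw [ren_eq, ren_eq, List.map_take]

theorem ren_length (π : V → V') (g : DL V) : (ren π g).length = g.length := by
  rw [ren_eq, List.length_map]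

theorem ev_ren (π : V → V') (g : DL V) (y : V' → Bool) :
    ev (ren π g) y = ev g (fun v => y (π v)) := by
  induction g with
  | nil => rfl
  | cons e g ih =>
    have h1 : ren π (e :: g) = (imt π e.1, e.2) :: ren π g := rfl
    rw [h1]
    show (if Sat (imt π e.1) y then e.2 else ev (ren π g) y) =
      if Sat e.1 (fun v => y (π v)) then e.2 else ev g (fun v => y (π v))
    rw [ih]
    by_cases h : Sat e.1 (fun v => y (π v))
    · rw [if_pos h, if_pos ((sat_img π e.1 y).2 h)]
    · rw [if_neg h, if_neg (fun h' => h ((sat_img π e.1 y).1 h'))]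

theorem mem_vars_ren (π : V → V') (g : DL V) (v' : V') :
    v' ∈ vars (ren π g) ↔ ∃ v ∈ vars g, π v = v' := by
  rw [ren_eq]
  constructor
  · rintro ⟨e', he', q, hq, rfl⟩
    obtain ⟨e, he, rfl⟩ := List.mem_map.1 he'
    obtain ⟨p, hp, rfl⟩ := (mem_imt _ _ _).1 hq
    exact ⟨p.1, ⟨e, he, p, hp, rfl⟩, rfl⟩
  · rintro ⟨v, ⟨e, he, p, hp, rfl⟩, rfl⟩
    exact ⟨(imt π e.1, e.2), List.mem_map.2 ⟨e, he, rfl⟩, Prod.map π id p,
      (mem_imt _ _ _).2 ⟨p, hp, rfl⟩, rfl⟩

theorem dep_aux (g : DL V) (T : Tm V) (hT : ∀ p ∈ T, p.1 ∈ vars g) (l : ℕ) :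
    Dep (vars g) (fun y => Sat T y ∧ NoSat (g.take l) y) := by
  have h1 : ∀ x y : V → Bool, (∀ v ∈ vars g, x v = y v) →
      (Sat T x ∧ NoSat (g.take l) x) → (Sat T y ∧ NoSat (g.take l) y) := by
    intro x y h hx
    refine ⟨fun p hp => ?_, fun e he h2 => ?_⟩
    · rw [← h p.1 (hT p hp)]
      exact hx.1 p hp
    · refine hx.2 e he fun p hp => ?_
      rw [h p.1 ⟨e, List.mem_of_mem_take he, p, hp, rfl⟩]
      exact h2 p hp
  intro x y h
  exact ⟨h1 x y h, h1 y x fun v hv => (h v hv).symm⟩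

theorem pr_ren (trf : TrfStmt) [Fintype V] [DecidableEq V] [Fintype V'] [DecidableEq V']
    (π : V → V') (g : DL V) (hπ : Set.InjOn π (vars g)) (T : Tm V) (hT : ∀ p ∈ T, p.1 ∈ vars g)
    (l : ℕ) :
    pr (fun y : V' → Bool => Sat (imt π T) y ∧ NoSat ((ren π g).take l) y) =
      pr (fun y : V → Bool => Sat T y ∧ NoSat (g.take l) y) := by
  rw [← trf V V' π (vars g) _ hπ (dep_aux g T hT l)]
  refine pr_congr fun y => ?_
  rw [ren_take, nosat_ren, sat_img]

theorem bad_ren (trf : TrfStmt) [Fintype V] [DecidableEq V] [Fintype V'] [DecidableEq V']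
    (π : V → V') (g : DL V) (t : ℕ) (k : ℝ) (hπ : Set.InjOn π (vars g)) (y : V' → Bool) :
    Bad t k (ren π g) y ↔ Bad t k g (fun v => y (π v)) := by
  constructor
  · rintro ⟨l, hl, hN, T', hT', hc, hs, hp⟩
    rw [ren_length] at hl
    rw [ren_take, nosat_ren] at hN
    -- the term over the variables of `g`
    have hex : ∃ T : Tm V, (∀ p ∈ T, p.1 ∈ vars g) ∧ imt π T = T' ∧ T.card ≤ T'.card := by
      clear hc hs hp
      induction T' using Finset.induction_on with
      | empty => exact ⟨∅, by simp, by simp [imt], by simp⟩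
      | insert q T'' hq ih =>
        obtain ⟨T, h1, h2, h3⟩ := ih fun p hp => hT' p (Finset.mem_insert_of_mem hp)
        obtain ⟨v, hv, hvq⟩ := (mem_vars_ren π g q.1).1 (hT' q (Finset.mem_insert_self _ _))
        refine ⟨insert (v, q.2) T, ?_, ?_, ?_⟩
        · intro p hp
          rcases Finset.mem_insert.1 hp with rfl | hp
          · exact hv
          · exact h1 p hp
        · ext r
          rw [mem_imt, Finset.mem_insert, ← h2, mem_imt]
          constructor
          · rintro ⟨p, hp, rfl⟩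
            rcases Finset.mem_insert.1 hp with rfl | hp
            · exact Or.inl (Prod.ext hvq rfl)
            · exact Or.inr ⟨p, hp, rfl⟩
          · rintro (rfl | ⟨p, hp, rfl⟩)
            · exact ⟨(v, r.2), Finset.mem_insert_self _ _, Prod.ext hvq rfl⟩
            · exact ⟨p, Finset.mem_insert_of_mem hp, rfl⟩
        · rw [Finset.card_insert_of_notMem hq]
          exact (Finset.card_insert_le _ _).trans (Nat.succ_le_succ h3)
    obtain ⟨T, hTg, himg, hcard⟩ := hex
    subst himg
    refine ⟨l, hl, hN, T, hTg, hcard.trans hc, (sat_img π T y).1 hs, ?_⟩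
    rw [← pr_ren trf π g hπ _ hTg l]
    exact hp
  · rintro ⟨l, hl, hN, T, hT, hc, hs, hp⟩
    refine ⟨l, ?_, ?_, imt π T, ?_, (card_imt π T).trans hc, ?_, ?_⟩
    · rw [ren_length]
      exact hl
    · rw [ren_take, nosat_ren]
      exact hN
    · intro q hq
      obtain ⟨p, hp', rfl⟩ := (mem_imt _ _ _).1 hq
      exact (mem_vars_ren π g _).2 ⟨p.1, hT p hp', rfl⟩
    · exact (sat_img π T y).2 hs
    · rw [pr_ren trf π g hπ T hT l]
      exact hp

/-- **Packet RNB.** -/
theorem rnb (trf : TrfStmt) (dep : DepStmt) : RnbStmt := by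
  intro V V' _ _ _ _ π g t k hπ
  have hlo : ∀ y, lo t k (ren π g) y ↔ lo t k g fun v => y (π v) := by
    intro y
    unfold lo
    rw [ev_ren, bad_ren trf π g t k hπ]
  have hhi : ∀ y, hi t k (ren π g) y ↔ hi t k g fun v => y (π v) := by
    intro y
    unfold hi
    rw [ev_ren, bad_ren trf π g t k hπ]
  refine ⟨hlo, hhi, ?_, ?_, ?_, ren_length π g⟩
  · rw [pr_congr hlo]
    exact trf V V' π (vars g) _ hπ (dep V g t k).1
  · rw [pr_congr hhi]
    exact trf V V' π (vars g) _ hπ (dep V g t k).2.1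
  · intro hw e' he'
    obtain ⟨e, he, rfl⟩ := List.mem_map.1 he'
    exact (card_imt π e.1).trans (hw e he)

end Pool.Agent.Helper81.DT
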